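import Pool.Agent.H644.LB.Cmd
import Pool.Graph.R_seed8.H630R2.LA.Machine

/-! Branching programs for the connectivity of directed graphs, and their simulation by a two-way head. -/

set_option autoImplicit false

namespace Pool.Agent.H644.LB

open Relation

/-- A (deterministic) branching program which takes as input a directed graph with the vertices `Fin m`,
given by its adjacency matrix: at a node `v` with the label `inl (i, j)` it asks whether there is an edge
from `i` to `j` and goes on to the node `succ v` of the answer, at a node with the label `inr b` it stops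
with the output `b`. -/
structure BranchProg (m : ℕ) where
  /-- the number of the nodes -/
  size : ℕ
  start : Fin size
  label : Fin size → (Fin m × Fin m) ⊕ Bool
  succ : Fin size → Bool → Fin size

/-- Started in the node `v` the program `P` stops with the output `b` on the input `G`. -/
inductive BranchProg.Eval {m : ℕ} (P : BranchProg m) (G : Fin m → Fin m → Bool) :
    Fin P.size → Bool → Prop
  | out (v : Fin P.size) (b : Bool) (h : P.label v = Sum.inr b) : BranchProg.Eval P G v b
  | query (v : Fin P.size) (e : Fin m × Fin m) (b : Bool) (h : P.label v = Sum.inl e)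
      (hr : BranchProg.Eval P G (P.succ v (G e.1 e.2)) b) : BranchProg.Eval P G v b

/-- There is a directed path from the first to the last vertex. -/
def Conn {m : ℕ} (G : Fin m → Fin m → Bool) : Prop :=
  ∃ s t : Fin m, s.val = 0 ∧ t.val + 1 = m ∧ ReflTransGen (fun u v => G u v = true) s t

/-- The program decides whether there is a directed path from the first to the last vertex. -/
def BranchProg.DecidesConn {m : ℕ} (P : BranchProg m) : Prop :=
  ∀ G : Fin m → Fin m → Bool, ∃ b, P.Eval G P.start b ∧ (b = true ↔ Conn G)

/-- The least number of nodes of a branching program which decides connectivity of directed graphs with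
`m` vertices. -/
noncomputable def connSize (m : ℕ) : ℕ :=
  sInf {s | ∃ P : BranchProg m, P.DecidesConn ∧ P.size = s}

section graph

variable {S : Type} (B n m : ℕ) (mode : Option (Fin B))

/-- The cell that has to be read for the edge `u v` (relative to the home position). -/
def goff (u v : Fin m) : ℕ :=
  if u.val = 0 then (if mode.isNone ∧ 1 ≤ v.val ∧ v.val ≤ B then v.val else 1)
  else if (u.val - 1) / B < n then (u.val - 1) / B + 1 else 1

/-- The edges of the layered graph. The vertex `0` is the source, the vertex `1 + i * B + p` is the state `p`
after `i` letters, `i ≤ n`, the last vertex is the target. -/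
def gph (hB : 0 < B) (bit : S → Bool) (lr : S → Fin B → Fin B → Bool) (tgt : Fin B → Bool)
    (u v : Fin m) (σ : S) : Bool :=
  if u.val = 0 then
    (decide (1 ≤ v.val ∧ v.val ≤ B)) &&
      (match mode with
        | none => bit σ
        | some p => decide (v.val = p.val + 1))
  else if (u.val - 1) / B < n then
    (decide (1 ≤ v.val ∧ (v.val - 1) / B = (u.val - 1) / B + 1)) &&
      lr σ ⟨(u.val - 1) % B, Nat.mod_lt _ hB⟩ ⟨(v.val - 1) % B, Nat.mod_lt _ hB⟩
  else if (u.val - 1) / B = n then
    (decide (v.val + 1 = m)) && tgt ⟨(u.val - 1) % B, Nat.mod_lt _ hB⟩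
  else false

/-- The allowed initial states. -/
def gstart (bit : S → Bool) (τ : ℕ → S) (y : ℕ) (p : Fin B) : Prop :=
  match mode with
    | none => bit (τ (y + 1 + p.val)) = true
    | some p0 => p = p0

end graph

/-- The path lemma for the layered graph. -/
def S_graph : Prop :=
  ∀ (S : Type) (B n m : ℕ) (mode : Option (Fin B)) (hB : 0 < B) (bit : S → Bool)
    (lr : S → Fin B → Fin B → Bool) (tgt : Fin B → Bool) (τ : ℕ → S) (y : ℕ), (n + 1) * B + 2 ≤ m →
    (Conn (fun u v => gph B n m mode hB bit lr tgt u v (τ (y + goff B n m mode u v))) ↔
      ∃ p q : Fin B, gstart B mode bit τ y p ∧ Pool.Agent.H630R2.LA.path lr τ (y + 1) n p q ∧ tgt q = true)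

/-- Branching programs exist. -/
def S_exists : Prop := ∀ m : ℕ, ∃ P : BranchProg m, P.DecidesConn

end Pool.Agent.H644.LB
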