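import Pool.Agent.H644.LB.Machine
import Pool.Graph.R_seed8.H630R2.LA.Det

/-! The deterministic machine. Adapted from `H630R2/LA/Det.lean`. -/

set_option autoImplicit false

namespace Pool.Agent.H644.LB

open Cmd Relation

open Pool.Agent.H630R2.LA (Sym WS ix isLm nr nr_zero Ann LimAut Cfg Step init initTape keep rewrite_keep
  finite_WS lift not_mem_of_stuck Sym.rewrite)

section det

variable {A : Type} (h : ℕ) (rel : A → Fin (2 ^ h) → Fin (2 ^ h) → Bool) (p0 : Fin (2 ^ h))
  (facc : Fin (2 ^ h) → Bool) {m : ℕ} (P : BranchProg m)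

/-- The states of the deterministic machine. -/
def QS : Type :=
  (Fin (2 ^ h) × Bool) ⊕ ((Σ k : Fin (2 ^ h), (nextP h rel p0 P k).St) ⊕
    ((Σ k : Fin (2 ^ h), (finP h rel p0 facc P k).St) ⊕ Bool))

/-- The head is on an unvisited cell with index `k` in its block, whose bit is `b`. -/
def wrQ (k : Fin (2 ^ h)) (b : Bool) : QS h rel p0 facc P := Sum.inl (k, b)

def nxQ (k : Fin (2 ^ h)) (s : (nextP h rel p0 P k).St) : QS h rel p0 facc P :=
  Sum.inr (Sum.inl ⟨k, s⟩)

def fiQ (k : Fin (2 ^ h)) (s : (finP h rel p0 facc P k).St) : QS h rel p0 facc P :=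
  Sum.inr (Sum.inr (Sum.inl ⟨k, s⟩))

def enQ (b : Bool) : QS h rel p0 facc P := Sum.inr (Sum.inr (Sum.inr b))

/-- The moves of the deterministic machine. -/
def tr (q : QS h rel p0 facc P) (σ : Sym (WS A)) : Option (QS h rel p0 facc P × WS A × Bool) :=
  match q with
  | Sum.inl (k, b) => match σ with
    | .sym (.raw a) => some (Sum.elim (nxQ h rel p0 facc P (ix h (k.val + 1)))
        (wrQ h rel p0 facc P (ix h (k.val + 1))) (nextP h rel p0 P (ix h (k.val + 1))).entry,
        .mark a b, false)
    | .rm => some (Sum.elim (fiQ h rel p0 facc P k) (enQ h rel p0 facc P)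
        (finP h rel p0 facc P k).entry, .dum, false)
    | _ => none
  | Sum.inr (Sum.inl ⟨k, s⟩) => some (Sum.elim (nxQ h rel p0 facc P k) (wrQ h rel p0 facc P k)
        ((nextP h rel p0 P k).next s σ), keep σ, (nextP h rel p0 P k).dir s σ)
  | Sum.inr (Sum.inr (Sum.inl ⟨k, s⟩)) => some (Sum.elim (fiQ h rel p0 facc P k)
        (enQ h rel p0 facc P) ((finP h rel p0 facc P k).next s σ), keep σ,
        (finP h rel p0 facc P k).dir s σ)
  | Sum.inr (Sum.inr (Sum.inr b)) => match b, σ with
    | true, .rm => some (enQ h rel p0 facc P true, .dum, true)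
    | _, _ => none

theorem finite_QS : Finite (QS h rel p0 facc P) := by
  unfold QS
  infer_instance

/-- The deterministic machine. -/
def detM [Finite A] : LimAut A where
  Q := QS h rel p0 facc P
  W := WS A
  finQ := finite_QS h rel p0 facc P
  finW := finite_WS A
  inp := WS.raw
  inp_inj := by
    intro a b hab
    cases hab
    rfl
  δ := fun q σ => {x | tr h rel p0 facc P q σ = some x}
  q0 := wrQ h rel p0 facc P (ix h 0) (decide (ix h 0 = p0))
  F := {enQ h rel p0 facc P true}

variable [Finite A]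

theorem detM_det : (detM h rel p0 facc P : LimAut A).Deterministic := by
  intro q σ x hx y hy
  have h1 : tr h rel p0 facc P q σ = some x := hx
  have h2 : tr h rel p0 facc P q σ = some y := hy
  rw [h1] at h2
  exact Option.some.inj h2

variable {h rel p0 facc} {strict : Prop}

theorem impl_next (k : Fin (2 ^ h)) : Impl strict (detM h rel p0 facc P : LimAut A)
    (nextP h rel p0 P k) (nxQ h rel p0 facc P k) (wrQ h rel p0 facc P k) := by
  intro s σ
  exact ⟨keep σ, rfl, fun _ => rewrite_keep σ⟩

theorem impl_fin (k : Fin (2 ^ h)) : Impl strict (detM h rel p0 facc P : LimAut A)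
    (finP h rel p0 facc P k) (fiQ h rel p0 facc P k) (enQ h rel p0 facc P) := by
  intro s σ
  exact ⟨keep σ, rfl, fun _ => rewrite_keep σ⟩

omit [Finite A] in
theorem main_bound (hm : (2 ^ h + 2 ^ h) * 2 ^ h + 2 ≤ m) : (2 ^ h + 1) * 2 ^ h + 2 ≤ m := by
  refine le_trans ?_ hm
  have hB : 1 ≤ 2 ^ h := Nat.one_le_two_pow
  have : (2 ^ h + 1) * 2 ^ h ≤ (2 ^ h + 2 ^ h) * 2 ^ h := Nat.mul_le_mul_right _ (by omega)
  omega

/-- The main loop. -/
theorem loop (hG : S_graph) (hP : P.DecidesConn) (hm : (2 ^ h + 2 ^ h) * 2 ^ h + 2 ≤ m) (w : List A) (t : ℕ) (ht : t ≤ w.length) :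
    ∃ (τ : ℕ → Sym (WS A)) (S : Set ℕ) (b : Bool), Ann h rel p0 w τ t ∧
      (∀ i, t < i → τ i = initTape (detM h rel p0 facc P) w i) ∧
      (∀ i, 1 ≤ i → (i ∈ S ↔ i ≤ t)) ∧
      (b = true ↔ nr h rel p0 w ((t / 2 ^ h) * 2 ^ h) (ix h t)) ∧
      ReflTransGen (Step strict w.length) (init (detM h rel p0 facc P) w)
        ⟨wrQ h rel p0 facc P (ix h t) b, t + 1, τ, S⟩ := by
  induction t with
  | zero =>
    refine ⟨initTape (detM h rel p0 facc P) w, ∅, decide (ix h 0 = p0), ⟨rfl, ?_⟩, fun _ _ => rfl,
      ?_, ?_, ReflTransGen.refl⟩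
    · intro i hi; exact absurd hi (Nat.not_lt_zero _)
    · intro i hi; simp; omega
    · rw [Nat.zero_div, Nat.zero_mul, nr_zero]
      simp
  | succ t ih =>
    obtain ⟨τ, S, b, hA, hτ, hS, hb, hreach⟩ := ih (by omega)
    have hlt : t < w.length := by omega
    have hwt : w[t]? = some w[t] := List.getElem?_eq_getElem hlt
    have hcell : τ (t + 1) = .sym (.raw w[t]) := by
      rw [hτ (t + 1) (by omega)]
      simp only [initTape, hwt]
      rfl
    set τ' : ℕ → Sym (WS A) := Function.update τ (t + 1) (.sym (.mark w[t] b)) with hτ'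
    have hagree : ∀ i, i ≤ t → τ' i = τ i := by
      intro i hi
      rw [hτ', Function.update_of_ne]
      omega
    have hnew : τ' (t + 1) = .sym (.mark w[t] b) := by
      rw [hτ', Function.update_self]
    have hA' : Ann h rel p0 w τ' (t + 1) := by
      refine ⟨by rw [hagree 0 (by omega)]; exact hA.1, ?_⟩
      intro i hi
      rcases Nat.lt_or_ge i t with h1 | h1
      · rw [hagree (i + 1) (by omega)]
        exact hA.2 i h1
      · have : i = t := by omega
        subst this
        exact ⟨w[i], b, hwt, hnew, hb⟩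
    have hnot : t + 1 ∉ S := by
      intro h
      have := (hS (t + 1) (by omega)).1 h
      omega
    have hS1 : ∀ i, 1 ≤ i → (i ∈ insert (t + 1) S ↔ i ≤ t + 1) := by
      intro i hi
      rw [Set.mem_insert_iff, hS i hi]
      omega
    have hk' : ix h ((ix h t).val + 1) = ix h (t + 1) := by
      apply Fin.ext
      show (t % 2 ^ h + 1) % 2 ^ h = (t + 1) % 2 ^ h
      rw [Nat.mod_add_mod]
    have hstep : Step strict w.length
        (⟨wrQ h rel p0 facc P (ix h t) b, t + 1, τ, S⟩ : Cfg (detM h rel p0 facc P))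
        ⟨Sum.elim (nxQ h rel p0 facc P (ix h (t + 1))) (wrQ h rel p0 facc P (ix h (t + 1)))
          (nextP h rel p0 P (ix h (t + 1))).entry, t, τ', insert (t + 1) S⟩ := by
      refine ⟨by show t + 1 ≤ w.length + 1; omega, _, .mark w[t] b, false, ?_, fun _ h => absurd h hnot, rfl,
        fun h => absurd h hnot, ?_, rfl, by simp, by simp⟩
      · show tr h rel p0 facc P (wrQ h rel p0 facc P (ix h t) b) (τ (t + 1)) = some _
        rw [hcell]
        simp only [tr, wrQ]
        rw [hk']
        rfl
      · intro _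
        show τ' = Function.update τ (t + 1) ((τ (t + 1)).rewrite (.mark w[t] b))
        rw [hcell]
        rfl
    have hy : t + 1 = ((t + 1) / 2 ^ h) * 2 ^ h + (ix h (t + 1)).val := by
      show t + 1 = ((t + 1) / 2 ^ h) * 2 ^ h + (t + 1) % 2 ^ h
      rw [Nat.mul_comm, Nat.div_add_mod]
    obtain ⟨b', hrun, hb'⟩ := decides_main (P := P) (hi := t + 1) hG hP (main_bound hm) hA' hy le_rfl
    have hrun' : Run τ' (t + 1) (nextP h rel p0 P (ix h (t + 1))) t b' (t + 1 + 1) :=
      run_mvs_right (n := 1) (by omega) hrun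
    have hpath := Impl.run (strict := strict) (M := detM h rel p0 facc P) hrun' _ _
      (impl_next P (facc := facc) (ix h (t + 1)))
    obtain ⟨S', hS', hlift⟩ := lift (n := w.length) (by omega) hA'.1 hpath _ hS1
    refine ⟨τ', S', b', hA', ?_, hS', hb', (hreach.tail hstep).trans hlift⟩
    intro i hi
    rw [hτ', Function.update_of_ne (by omega)]
    exact hτ i (by omega)

/-- The language of the deterministic machine. -/
theorem detM_language (hG : S_graph) (hP : P.DecidesConn) (hm : (2 ^ h + 2 ^ h) * 2 ^ h + 2 ≤ m)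
    (w : List A) :
    w ∈ (detM h rel p0 facc P : LimAut A).language strict ↔
      ∃ f, facc f = true ∧ nr h rel p0 w w.length f := by
  obtain ⟨τ, S, b, hA, hτ, hS, hb, hreach⟩ := loop P (strict := strict) (rel := rel) (p0 := p0)
    (facc := facc) hG hP hm w w.length le_rfl
  have hcell : τ (w.length + 1) = .rm := by
    rw [hτ (w.length + 1) (by omega)]
    simp only [initTape, List.getElem?_eq_none (le_refl w.length)]
    rfl
  have hnot : w.length + 1 ∉ S := by
    intro h
    have := (hS (w.length + 1) (by omega)).1 h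
    omega
  have hS1 : ∀ i, 1 ≤ i → (i ∈ insert (w.length + 1) S ↔ i ≤ w.length + 1) := by
    intro i hi
    rw [Set.mem_insert_iff, hS i hi]
    omega
  have hstep : Step strict w.length
      (⟨wrQ h rel p0 facc P (ix h w.length) b, w.length + 1, τ, S⟩ : Cfg (detM h rel p0 facc P))
      ⟨Sum.elim (fiQ h rel p0 facc P (ix h w.length)) (enQ h rel p0 facc P)
        (finP h rel p0 facc P (ix h w.length)).entry, w.length, τ, insert (w.length + 1) S⟩ := by
    refine ⟨le_rfl, _, .dum, false, ?_, fun _ h => absurd h hnot, rfl,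
      fun h => absurd h hnot, ?_, rfl, by simp, by simp⟩
    · show tr h rel p0 facc P (wrQ h rel p0 facc P (ix h w.length) b) (τ (w.length + 1)) = some _
      rw [hcell]
      rfl
    · intro _
      show τ = Function.update τ (w.length + 1) ((τ (w.length + 1)).rewrite .dum)
      funext i
      by_cases hi : i = w.length + 1
      · subst hi
        rw [Function.update_self, hcell]
        rfl
      · rw [Function.update_of_ne hi]
  have hy : w.length = (w.length / 2 ^ h) * 2 ^ h + (ix h w.length).val := by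
    show w.length = (w.length / 2 ^ h) * 2 ^ h + w.length % 2 ^ h
    rw [Nat.mul_comm, Nat.div_add_mod]
  obtain ⟨b', hrun, hb'⟩ := decides_fin (P := P) (facc := facc) (hi := w.length + 1) hG hP hm hA hy (by omega)
  have hpath := Impl.run (strict := strict) (M := detM h rel p0 facc P) hrun _ _
    (impl_fin P (facc := facc) (ix h w.length))
  obtain ⟨S', hS', hlift⟩ := lift (n := w.length) le_rfl hA.1 hpath _ hS1
  have hall := (hreach.tail hstep).trans hlift
  rw [← hb']
  cases b'
  · simp only [Bool.false_eq_true, iff_false]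
    refine not_mem_of_stuck (detM_det h rel p0 facc P) hall ?_ ?_
    · rintro c' ⟨_, q, b, d, hδ, _⟩
      have : tr h rel p0 facc P (enQ h rel p0 facc P false) (τ (w.length + 1)) = some (q, b, d) := hδ
      simp [tr, enQ] at this
    · show w.length + 1 ≠ w.length + 2
      omega
  · simp only [iff_true]
    refine ⟨⟨enQ h rel p0 facc P true, w.length + 2, τ, insert (w.length + 1) S'⟩,
      hall.tail ?_, rfl, rfl⟩
    have hin : w.length + 1 ∈ S' := (hS' _ (by omega)).2 le_rfl
    refine ⟨le_rfl, enQ h rel p0 facc P true, .dum, true, ?_, ?_, rfl, fun _ => rfl,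
      fun h => absurd hin h, rfl, fun _ => rfl, fun h => absurd h (by simp)⟩
    · show tr h rel p0 facc P (enQ h rel p0 facc P true) (τ (w.length + 1)) = some _
      rw [hcell]
      rfl
    · intro _ _
      show (τ (w.length + 1)).rewrite .dum = τ (w.length + 1)
      rw [hcell]
      rfl

end det

end Pool.Agent.H644.LB
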