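import Pool.Agent.H644.LB.BP

/-! Branching programs which decide connectivity exist (helper289, for helper644). -/

set_option autoImplicit false

namespace Pool.Agent.H644.LB

namespace ExistsAux

open Classical

/-- the pairs of vertices -/
abbrev E (m : ℕ) : Type := Fin m × Fin m

/-- an enumeration of the pairs -/
noncomputable def en (m : ℕ) : E m ≃ Fin (Fintype.card (E m)) := Fintype.equivFin (E m)

/-- the nodes -/
abbrev V (m : ℕ) : Type := Fin (Fintype.card (E m) + 1) × (E m → Bool)

/-- an enumeration of the nodes -/
noncomputable def ve (m : ℕ) : V m ≃ Fin (Fintype.card (V m)) := Fintype.equivFin (V m)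

/-- the label of a node -/
noncomputable def lab {m : ℕ} (v : V m) : (Fin m × Fin m) ⊕ Bool :=
  if h : v.1.val < Fintype.card (E m) then Sum.inl ((en m).symm ⟨v.1.val, h⟩)
  else Sum.inr (decide (Conn fun i j => v.2 (i, j)))

/-- the next node -/
noncomputable def nxt {m : ℕ} (v : V m) (b : Bool) : V m :=
  if h : v.1.val < Fintype.card (E m) then
    (⟨v.1.val + 1, Nat.succ_lt_succ h⟩, Function.update v.2 ((en m).symm ⟨v.1.val, h⟩) b)
  else v

/-- the program -/
noncomputable def prog (m : ℕ) : BranchProg m where
  size := Fintype.card (V m)
  start := ve m (0, fun _ => false)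
  label := fun v => lab ((ve m).symm v)
  succ := fun v b => ve m (nxt ((ve m).symm v) b)

lemma eval_prog {m : ℕ} (G : Fin m → Fin m → Bool) : ∀ (d : ℕ) (v : V m),
    v.1.val + d = Fintype.card (E m) →
    (∀ p : E m, (en m p).val < v.1.val → v.2 p = G p.1 p.2) →
    (prog m).Eval G (ve m v) (decide (Conn G)) := by
  intro d
  induction d with
  | zero =>
    intro v hd hv
    refine BranchProg.Eval.out _ _ ?_
    show lab ((ve m).symm (ve m v)) = _
    rw [Equiv.symm_apply_apply]
    have h1 : ¬ v.1.val < Fintype.card (E m) := by omega
    have h2 : (fun i j => v.2 (i, j)) = G := by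
      funext i j
      refine hv (i, j) ?_
      have := (en m (i, j)).2
      omega
    unfold lab
    rw [dif_neg h1, h2]
  | succ d ih =>
    intro v hd hv
    have h1 : v.1.val < Fintype.card (E m) := by omega
    refine BranchProg.Eval.query _ ((en m).symm ⟨v.1.val, h1⟩) _ ?_ ?_
    · show lab ((ve m).symm (ve m v)) = _
      rw [Equiv.symm_apply_apply]
      unfold lab
      rw [dif_pos h1]
    · show (prog m).Eval G (ve m (nxt ((ve m).symm (ve m v)) _)) _
      rw [Equiv.symm_apply_apply]
      unfold nxt
      rw [dif_pos h1]
      refine ih _ ?_ ?_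
      · show v.1.val + 1 + d = _
        omega
      · intro p hp
        have hp' : (en m p).val < v.1.val + 1 := hp
        show Function.update v.2 ((en m).symm ⟨v.1.val, h1⟩) _ p = _
        by_cases h2 : p = (en m).symm ⟨v.1.val, h1⟩
        · rw [h2, Function.update_self]
        · rw [Function.update_of_ne h2]
          refine hv p ?_
          have h3 : (en m p).val ≠ v.1.val := by
            intro h4
            apply h2
            rw [Equiv.eq_symm_apply]
            exact Fin.ext h4
          omega

end ExistsAux

open ExistsAux in
/-- Branching programs exist. -/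
theorem bp_exists : S_exists := by
  classical
  intro m
  refine ⟨prog m, fun G => ⟨decide (Conn G), ?_, ?_⟩⟩
  · refine eval_prog G (Fintype.card (E m)) (0, fun _ => false) ?_ ?_
    · simp
    · intro p hp
      exact absurd hp (Nat.not_lt_zero _)
  · rw [decide_eq_true_iff]

end Pool.Agent.H644.LB
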