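import Pool.Agent.H644.LB.Nfa
import Pool.Graph.R_seed8.TH705.LB.Lower

/-! The growth of the cost function. -/

set_option autoImplicit false

namespace Pool.Agent.H644.LB

open Filter Asymptotics

open Pool.Agent.H630R2.LA (LimAut detSize costs D) 

section lower

open Pool.Agent.TH705.LB

theorem detSize_le (strict : Prop) {A : Type} [Finite A] (M : LimAut A) :
    detSize strict (M.language strict) ≤ 2 ^ ((M.size + 2) ^ 4) := by
  obtain ⟨M', h1, h2, h3⟩ := Pool.Agent.H630R2.LA.upper M strict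
  have h4 : detSize strict (M.language strict) ≤ M'.size := Nat.sInf_le ⟨M', h1, h2, rfl⟩
  exact h4.trans h3

theorem bdd (strict : Prop) (n : ℕ) : BddAbove (costs strict n) := by
  refine ⟨2 ^ ((n + 2) ^ 4), ?_⟩
  rintro s ⟨A, hA, M, hM, rfl⟩
  refine (detSize_le strict M).trans ?_
  apply Nat.pow_le_pow_right (by omega)
  exact Nat.pow_le_pow_left (by omega) 4

theorem le_detSize (strict : Prop) (m : ℕ) :
    2 ^ (m ^ 2) ≤ detSize strict ((witM m).language strict) ^ 2 := by
  obtain ⟨M', h1, h2, -⟩ := Pool.Agent.H630R2.LA.upper (witM m) strict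
  have hne : {s | ∃ M : LimAut Ltr, M.Deterministic ∧
      M.language strict = (witM m).language strict ∧ M.size = s}.Nonempty := ⟨_, M', h1, h2, rfl⟩
  obtain ⟨M, h3, h4, h5⟩ := Nat.sInf_mem hne
  have h6 : M.size = detSize strict ((witM m).language strict) := h5
  rw [← h6]
  exact lower m strict M h3 h4

/-- The lower bound of the library (`QuadraticExponent`). -/
theorem D_lower (strict : Prop) (n : ℕ) (hn : 66500 ≤ n) :
    2 ^ (n ^ 2) ≤ D strict n ^ 4000000 := by
  obtain ⟨m, hm, h1, h2⟩ : ∃ m, 49 ≤ m ∧ 1330 * (m + 1) ≤ n ∧ n ≤ 1330 * (m + 2) :=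
    ⟨n / 1330 - 1, by omega, by omega, by omega⟩
  have hmem : detSize strict ((witM m).language strict) ∈ costs strict n :=
    ⟨Ltr, inferInstance, witM m, (size_witM m).trans h1, rfl⟩
  have h3 : detSize strict ((witM m).language strict) ≤ D strict n :=
    le_csSup (bdd strict n) hmem
  have h4 := le_detSize strict m
  have h5 : n ^ 2 ≤ m ^ 2 * 2000000 := by
    have h6 : n ^ 2 ≤ (1330 * (m + 2)) ^ 2 := Nat.pow_le_pow_left h2 2
    nlinarith
  calc 2 ^ (n ^ 2) ≤ 2 ^ (m ^ 2 * 2000000) := Nat.pow_le_pow_right (by omega) h5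
    _ = (2 ^ (m ^ 2)) ^ 2000000 := by rw [pow_mul]
    _ ≤ (detSize strict ((witM m).language strict) ^ 2) ^ 2000000 := Nat.pow_le_pow_left h4 _
    _ ≤ (D strict n ^ 2) ^ 2000000 := Nat.pow_le_pow_left (Nat.pow_le_pow_left h3 2) _
    _ = D strict n ^ 4000000 := by rw [← pow_mul]

end lower

theorem theta (strict : Prop) (C : ℕ) (h : ∀ᶠ n in atTop, D strict n ≤ 2 ^ (C * n ^ 2)) :
    (fun n : ℕ => Real.log (D strict n)) =Θ[atTop] fun n : ℕ => (n : ℝ) ^ 2 := by
  have hlog : 0 < Real.log 2 := Real.log_pos (by norm_num)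
  constructor
  · refine IsBigO.of_bound (C * Real.log 2) ?_
    filter_upwards [h, eventually_ge_atTop 66500] with n h1 h2
    have h3 := D_lower strict n h2
    have hpos : 1 ≤ D strict n := by
      by_contra hcon
      have : D strict n = 0 := by omega
      rw [this] at h3
      have h4 : 0 < 2 ^ (n ^ 2) := Nat.two_pow_pos _
      simp at h3
    have hpos' : (1 : ℝ) ≤ D strict n := by exact_mod_cast hpos
    rw [Real.norm_of_nonneg (Real.log_nonneg hpos'), Real.norm_of_nonneg (by positivity)]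
    have h4 : Real.log (D strict n) ≤ Real.log ((2 : ℝ) ^ (C * n ^ 2)) := by
      apply Real.log_le_log (by linarith)
      exact_mod_cast h1
    rw [Real.log_pow] at h4
    push_cast at h4
    nlinarith
  · refine IsBigO.of_bound (4000000 / Real.log 2) ?_
    filter_upwards [eventually_ge_atTop 66500] with n h2
    have h3 := D_lower strict n h2
    have hpos : 1 ≤ D strict n := by
      by_contra hcon
      have : D strict n = 0 := by omega
      rw [this] at h3
      have h4 : 0 < 2 ^ (n ^ 2) := Nat.two_pow_pos _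
      simp at h3
    have hpos' : (1 : ℝ) ≤ D strict n := by exact_mod_cast hpos
    rw [Real.norm_of_nonneg (Real.log_nonneg hpos'), Real.norm_of_nonneg (by positivity)]
    have h4 : Real.log ((2 : ℝ) ^ (n ^ 2)) ≤ Real.log ((D strict n : ℝ) ^ 4000000) := by
      apply Real.log_le_log (by positivity)
      exact_mod_cast h3
    rw [Real.log_pow, Real.log_pow] at h4
    push_cast at h4
    rw [div_mul_eq_mul_div, le_div_iff₀ hlog]
    linarith

/-- The barrier, for one value of `n`. -/
theorem barrier (hG : S_graph) (strict : Prop) (n k : ℕ) (hn : 4 ≤ n)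
    (h : connSize (2 ^ (2 * n ^ 2 + 2)) ≤ (2 ^ (2 * n ^ 2 + 2)) ^ k) :
    D strict n ≤ 2 ^ ((3 * k + 3) * n ^ 2) := by
  refine (D_le hG strict n _ le_rfl).trans ((Nat.mul_le_mul_left _ h).trans ?_)
  rw [← pow_mul, ← pow_add]
  apply Nat.pow_le_pow_right (by norm_num)
  have h1 : n + 11 ≤ n ^ 2 := by nlinarith
  have h2 : 16 ≤ n ^ 2 := by nlinarith
  have h3 : 2 * k ≤ k * n ^ 2 := by nlinarith
  have e1 : (3 * k + 3) * n ^ 2 = 3 * (k * n ^ 2) + 3 * n ^ 2 := by ring
  have e2 : (2 * n ^ 2 + 2) * k = 2 * (k * n ^ 2) + 2 * k := by ring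
  rw [e1, e2]
  omega

theorem tendsto_m : Tendsto (fun n : ℕ => 2 ^ (2 * n ^ 2 + 2)) atTop atTop := by
  refine tendsto_atTop_mono (f := fun n => n) (fun n => ?_) tendsto_id
  have h1 : n < 2 ^ n := Nat.lt_two_pow_self
  refine h1.le.trans (Nat.pow_le_pow_right (by norm_num) ?_)
  nlinarith

/-- If connectivity has branching programs of polynomial size then the growth is `2 ^ Θ(n ^ 2)`. -/
theorem collapse (hG : S_graph) (strict : Prop) (k : ℕ)
    (h : ∀ᶠ m in atTop, connSize m ≤ m ^ k) :
    (fun n : ℕ => Real.log (D strict n)) =Θ[atTop] fun n : ℕ => (n : ℝ) ^ 2 := by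
  apply theta strict (3 * k + 3)
  filter_upwards [tendsto_m.eventually h, eventually_ge_atTop 4] with n h1 h2
  exact barrier hG strict n k h2 h1

end Pool.Agent.H644.LB
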