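import Pool.Agent.H644.LB.BP

/-! The path lemma for the layered graph. -/

set_option autoImplicit false

namespace Pool.Agent.H644.LB

open Relation Pool.Agent.H630R2.LA

namespace GraphAux

theorem div_lay {B i p : ℕ} (hB : 0 < B) (hp : p < B) : (1 + i * B + p - 1) / B = i := by
  have h : 1 + i * B + p - 1 = B * i + p := by
    rw [Nat.mul_comm]
    omega
  rw [h, Nat.mul_add_div hB, Nat.div_eq_of_lt hp, Nat.add_zero]

theorem mod_lay {B i p : ℕ} (hp : p < B) : (1 + i * B + p - 1) % B = p := by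
  have h : 1 + i * B + p - 1 = B * i + p := by
    rw [Nat.mul_comm]
    omega
  rw [h, Nat.mul_add_mod, Nat.mod_eq_of_lt hp]

theorem eq_lay {B v : ℕ} (hv : 1 ≤ v) : v = 1 + (v - 1) / B * B + (v - 1) % B := by
  have h := Nat.div_add_mod (v - 1) B
  rw [Nat.mul_comm] at h
  omega

end GraphAux

open GraphAux

section

variable {S : Type} {B n m : ℕ} {mode : Option (Fin B)} (hB : 0 < B) {bit : S → Bool}
  {lr : S → Fin B → Fin B → Bool} {tgt : Fin B → Bool} {τ : ℕ → S} {y : ℕ}

/-- The edges. -/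
abbrev GG (B n m : ℕ) (mode : Option (Fin B)) (hB : 0 < B) (bit : S → Bool)
    (lr : S → Fin B → Fin B → Bool) (tgt : Fin B → Bool) (τ : ℕ → S) (y : ℕ) (u v : Fin m) : Prop :=
  gph B n m mode hB bit lr tgt u v (τ (y + goff B n m mode u v)) = true

theorem edge0 (hm : (n + 1) * B + 2 ≤ m) {u v : Fin m} (hu : u.val = 0) :
    GG B n m mode hB bit lr tgt τ y u v ↔
      ∃ p : Fin B, v.val = 1 + 0 * B + p.val ∧ gstart B mode bit τ y p := by
  unfold GG gph goff
  simp only [hu, if_true, Bool.and_eq_true, decide_eq_true_eq]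
  cases mode with
  | none =>
    simp only [gstart, Option.isNone_none, true_and]
    constructor
    · rintro ⟨h1, h2⟩
      rw [if_pos h1] at h2
      refine ⟨⟨v.val - 1, by omega⟩, by simp; omega, ?_⟩
      have e : y + 1 + (v.val - 1) = y + v.val := by omega
      show bit (τ (y + 1 + (v.val - 1))) = true
      rw [e]
      exact h2
    · rintro ⟨p, h1, h2⟩
      have hp := p.isLt
      have h3 : 1 ≤ v.val ∧ v.val ≤ B := by omega
      refine ⟨h3, ?_⟩
      rw [if_pos h3]
      have e : y + v.val = y + 1 + p.val := by omega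
      rw [e]
      exact h2
  | some p0 =>
    simp only [gstart, decide_eq_true_eq]
    have hp0 := p0.isLt
    constructor
    · rintro ⟨h1, h2⟩
      exact ⟨p0, by omega, rfl⟩
    · rintro ⟨p, h1, h2⟩
      subst h2
      exact ⟨by omega, by omega⟩

theorem edge1 {u v : Fin m} {i : ℕ} {p : Fin B} (hi : i < n) (hu : u.val = 1 + i * B + p.val) :
    GG B n m mode hB bit lr tgt τ y u v ↔
      ∃ q : Fin B, v.val = 1 + (i + 1) * B + q.val ∧ lr (τ (y + 1 + i)) p q = true := by
  have hp := p.isLt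
  have h0 : u.val ≠ 0 := by omega
  have h1 : (u.val - 1) / B = i := by rw [hu]; exact div_lay hB hp
  have h2 : (⟨(u.val - 1) % B, Nat.mod_lt _ hB⟩ : Fin B) = p := by
    apply Fin.ext
    show (u.val - 1) % B = p.val
    rw [hu]; exact mod_lay hp
  unfold GG gph goff
  rw [if_neg h0, if_neg h0, h1, if_pos hi, if_pos hi, h2]
  simp only [Bool.and_eq_true, decide_eq_true_eq]
  have e : y + (i + 1) = y + 1 + i := by omega
  rw [e]
  constructor
  · rintro ⟨⟨h3, h4⟩, h5⟩
    refine ⟨⟨(v.val - 1) % B, Nat.mod_lt _ hB⟩, ?_, h5⟩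
    rw [← h4]
    exact eq_lay h3
  · rintro ⟨q, h3, h4⟩
    have h5 : (v.val - 1) / B = i + 1 := by rw [h3]; exact div_lay hB q.isLt
    have h6 : (⟨(v.val - 1) % B, Nat.mod_lt _ hB⟩ : Fin B) = q := by
      apply Fin.ext
      show (v.val - 1) % B = q.val
      rw [h3]; exact mod_lay q.isLt
    rw [h6]
    exact ⟨⟨by omega, h5⟩, h4⟩

theorem edge2 {u v : Fin m} {p : Fin B} (hu : u.val = 1 + n * B + p.val) :
    GG B n m mode hB bit lr tgt τ y u v ↔ v.val + 1 = m ∧ tgt p = true := by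
  have hp := p.isLt
  have h0 : u.val ≠ 0 := by omega
  have h1 : (u.val - 1) / B = n := by rw [hu]; exact div_lay hB hp
  have h2 : (⟨(u.val - 1) % B, Nat.mod_lt _ hB⟩ : Fin B) = p := by
    apply Fin.ext
    show (u.val - 1) % B = p.val
    rw [hu]; exact mod_lay hp
  unfold GG gph goff
  rw [if_neg h0, if_neg h0, h1, if_neg (lt_irrefl n), if_pos rfl, h2]
  simp only [Bool.and_eq_true, decide_eq_true_eq]

theorem edge3 (hm : (n + 1) * B + 2 ≤ m) {u v : Fin m} (hu : u.val + 1 = m) :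
    ¬ GG B n m mode hB bit lr tgt τ y u v := by
  have h0 : u.val ≠ 0 := by
    have : 0 < (n + 1) * B := Nat.mul_pos (by omega) hB
    omega
  have h1 : n + 1 ≤ (u.val - 1) / B := by
    rw [Nat.le_div_iff_mul_le hB]
    omega
  unfold GG gph
  rw [if_neg h0, if_neg (by omega), if_neg (by omega)]
  simp

theorem lay_lt (hm : (n + 1) * B + 2 ≤ m) {i : ℕ} {p : Fin B} (hi : i ≤ n) :
    1 + i * B + p.val < m := by
  have hp := p.isLt
  have h1 : i * B ≤ n * B := Nat.mul_le_mul_right _ hi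
  have h2 : (n + 1) * B = n * B + B := by ring
  omega

theorem fwd (hm : (n + 1) * B + 2 ≤ m) {s v : Fin m} (hs : s.val = 0)
    (h : ReflTransGen (GG B n m mode hB bit lr tgt τ y) s v) :
    v.val = 0 ∨ (∃ i p, i ≤ n ∧ v.val = 1 + i * B + p.val ∧ ∃ p', gstart B mode bit τ y p' ∧
      path lr τ (y + 1) i p' p) ∨ (v.val + 1 = m ∧ ∃ p q : Fin B, gstart B mode bit τ y p ∧
        path lr τ (y + 1) n p q ∧ tgt q = true) := by
  induction h with
  | refl => exact Or.inl hs
  | tail _ h ih =>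
    rename_i b c _
    right
    rcases ih with h0 | ⟨i, p, hi, hv, p', hp', hpath⟩ | ⟨h1, _⟩
    · obtain ⟨p, h1, h2⟩ := (edge0 hB hm h0).1 h
      exact Or.inl ⟨0, p, Nat.zero_le _, h1, p, h2, rfl⟩
    · rcases Nat.lt_or_ge i n with hlt | hge
      · obtain ⟨q, h1, h2⟩ := (edge1 hB hlt hv).1 h
        refine Or.inl ⟨i + 1, q, hlt, h1, p', hp', ?_⟩
        rw [path_add]
        exact ⟨p, hpath, q, h2, rfl⟩
      · have : i = n := by omega
        subst this
        obtain ⟨h1, h2⟩ := (edge2 hB hv).1 h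
        exact Or.inr ⟨h1, p', p, hp', hpath, h2⟩
    · exact absurd h (edge3 hB hm h1)

theorem bwd (hm : (n + 1) * B + 2 ≤ m) {s : Fin m} (hs : s.val = 0) {p : Fin B}
    (hp : gstart B mode bit τ y p) : ∀ (i : ℕ) (hi : i ≤ n) (q : Fin B), path lr τ (y + 1) i p q →
    ReflTransGen (GG B n m mode hB bit lr tgt τ y) s ⟨1 + i * B + q.val, lay_lt hm hi⟩ := by
  intro i
  induction i with
  | zero =>
    intro hi q hq
    have : p = q := hq
    subst this
    exact ReflTransGen.single ((edge0 hB hm hs).2 ⟨p, rfl, hp⟩)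
  | succ i ih =>
    intro hi q hq
    rw [path_add] at hq
    obtain ⟨r, h1, q', h2, h3⟩ := hq
    have : q' = q := h3
    subst this
    exact (ih (by omega) r h1).tail ((edge1 hB (by omega) rfl).2 ⟨q', rfl, h2⟩)

end

theorem graph : S_graph := by
  intro S B n m mode hB bit lr tgt τ y hm
  constructor
  · rintro ⟨s, t, hs, ht, h⟩
    rcases fwd hB hm hs h with h0 | ⟨i, p, hi, hv, _⟩ | ⟨_, h⟩
    · have : 0 < (n + 1) * B := Nat.mul_pos (by omega) hB
      omega
    · have h1 := p.isLt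
      have h2 : i * B ≤ n * B := Nat.mul_le_mul_right _ hi
      have h3 : (n + 1) * B = n * B + B := by ring
      omega
    · exact h
  · rintro ⟨p, q, hp, hpath, hq⟩
    have hm0 : 0 < m := by omega
    refine ⟨⟨0, hm0⟩, ⟨m - 1, by omega⟩, rfl, ?_, ?_⟩
    · show m - 1 + 1 = m
      omega
    · refine (bwd (tgt := tgt) hB hm (s := ⟨0, hm0⟩) rfl hp n le_rfl q hpath).tail ?_
      refine (edge2 hB rfl).2 ⟨?_, hq⟩
      show m - 1 + 1 = m
      omega

end Pool.Agent.H644.LB
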