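import Pool.Agent.H644.LB.Runner

/-! The programs of the deterministic machine. Adapted from `H630R2/LA/Machine.lean`, with branching programs
in the place of Savitch's procedure. -/

set_option autoImplicit false

namespace Pool.Agent.H644.LB

open Cmd Relation

open Pool.Agent.H630R2.LA (Sym WS ix lrel bitS isLm nr Ann path link ix_add div_add bit_ann mem_block)

section defs

variable {A : Type} (h : ℕ) (rel : A → Fin (2 ^ h) → Fin (2 ^ h) → Bool) (p0 : Fin (2 ^ h))
  (facc : Fin (2 ^ h) → Bool) {m : ℕ} (P : BranchProg m)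

/-- The block length is positive. -/
theorem posB : 0 < 2 ^ h := Nat.two_pow_pos h

/-- The program for the states reached from the marked states (or from `p0`) by `n` letters. -/
def askP (O n : ℕ) (mode : Option (Fin (2 ^ h))) (tgt : Fin (2 ^ h) → Bool) : Cmd (Sym (WS A)) :=
  bpProg P O (goff (2 ^ h) n m mode) (gph (2 ^ h) n m mode (posB h) bitS (lrel h rel) tgt)

/-- Compute the bit of the next cell; the head is on the last visited cell, which has index `k`
when the cells are counted from the beginning of the block (`0` for the last cell of the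
previous block). -/
def mainP (k : Fin (2 ^ h)) : Cmd (Sym (WS A)) :=
  mvs false k.val (ite (act (fun σ => some (isLm σ)) isLm)
    (mvs true k.val (ret (decide (k = p0))))
    (mvs false (2 ^ h - 1) (thenRight (askP h rel P (2 ^ h) (2 ^ h) none (fun q => decide (q = k)))
      (2 ^ h + k.val + 1))))

/-- The same, starting one cell further left. -/
def nextP (k : Fin (2 ^ h)) : Cmd (Sym (WS A)) := mvs true 1 (mainP h rel p0 P k)

/-- Decide acceptance; the head is on the last letter. -/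
def finP (k : Fin (2 ^ h)) : Cmd (Sym (WS A)) :=
  mvs false k.val (ite (act (fun σ => some (isLm σ)) isLm)
    (mvs false 1 (thenRight (askP h rel P (k.val + 1) k.val (some p0) facc) (k.val + 1)))
    (mvs false (2 ^ h - 1) (thenRight (askP h rel P (2 ^ h + k.val) (2 ^ h + k.val) none facc)
      (2 ^ h + k.val + 1))))

end defs

section correctness

variable {A : Type} {h : ℕ} {rel : A → Fin (2 ^ h) → Fin (2 ^ h) → Bool} {p0 : Fin (2 ^ h)}
  {facc : Fin (2 ^ h) → Bool} {m : ℕ} {P : BranchProg m}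

theorem goff_bound {B n O : ℕ} {mode : Option (Fin B)} (h1 : 1 ≤ O) (hn : n ≤ O)
    (hB : mode = none → B ≤ O) (u v : Fin m) :
    1 ≤ goff B n m mode u v ∧ goff B n m mode u v ≤ O := by
  unfold goff
  split_ifs with h2 h3 h4
  · obtain ⟨h5, h6, h7⟩ := h3
    exact ⟨h6, h7.trans (hB (by simpa using h5))⟩
  · exact ⟨le_rfl, h1⟩
  · exact ⟨Nat.le_add_left _ _, (Nat.succ_le_of_lt (by assumption)).trans hn⟩
  · exact ⟨le_rfl, h1⟩

theorem decides_ask (hG : S_graph) (hP : P.DecidesConn) {O n : ℕ} {mode : Option (Fin (2 ^ h))}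
    {tgt : Fin (2 ^ h) → Bool} {τ : ℕ → Sym (WS A)} {hi y : ℕ} (h1 : 1 ≤ O) (hn : n ≤ O)
    (hB : mode = none → 2 ^ h ≤ O) (hO : y + O ≤ hi) (hm : (n + 1) * 2 ^ h + 2 ≤ m) :
    Decides τ hi (askP h rel P O n mode tgt) y y
      (∃ p q : Fin (2 ^ h), gstart (2 ^ h) mode bitS τ y p ∧ path (lrel h rel) τ (y + 1) n p q ∧
        tgt q = true) := by
  rw [← hG (Sym (WS A)) (2 ^ h) n m mode (posB h) bitS (lrel h rel) tgt τ y hm]
  exact decides_bp hP hO (goff_bound h1 hn hB)

theorem decides_lm_true {τ : ℕ → Sym (WS A)} {hi : ℕ} (h0 : τ 0 = .lm) :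
    Decides τ hi (act (fun σ => some (isLm σ)) isLm) 0 1 True := by
  refine ⟨true, Run.stop _ _ _ _ _ (Nat.zero_le _) ?_ ?_ ?_, by simp⟩
  · rw [h0]; rfl
  · intro _; rfl
  · rw [h0]; intro h; exact absurd h (by simp [isLm])

theorem decides_lm_false {τ : ℕ → Sym (WS A)} {hi x : ℕ} {a : A} {b : Bool}
    (h0 : τ (x + 1) = .sym (.mark a b)) (hx : x + 1 ≤ hi) :
    Decides τ hi (act (fun σ => some (isLm σ)) isLm) (x + 1) x False := by
  refine ⟨false, Run.stop _ _ _ _ _ hx ?_ ?_ ?_, by simp⟩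
  · rw [h0]; rfl
  · rw [h0]; intro h; exact absurd h (by simp [isLm])
  · intro _; rfl

theorem decides_main (hG : S_graph) (hP : P.DecidesConn) (hm : (2 ^ h + 1) * 2 ^ h + 2 ≤ m)
    {w : List A} {τ : ℕ → Sym (WS A)} {y hi j : ℕ}
    {k : Fin (2 ^ h)} (hA : Ann h rel p0 w τ y) (hy : y = j * 2 ^ h + k.val) (hhi : y ≤ hi) :
    Decides τ hi (mainP h rel p0 P k) y (y + 1) (nr h rel p0 w (j * 2 ^ h) k) := by
  have hB : 1 ≤ 2 ^ h := Nat.one_le_two_pow
  have hk := k.isLt
  rw [hy]
  apply decides_mvs_left (by omega)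
  rcases Nat.eq_zero_or_pos j with hj | hj
  · subst hj
    have hz : 0 * 2 ^ h = 0 := Nat.zero_mul _
    simp only [hz, Nat.zero_add]
    refine (decides_ite (φ := True) (ψ := nr h rel p0 w 0 k) (χ := False)
      (decides_lm_true hA.1) (fun _ => ?_) (fun h => absurd trivial h)).congr (by tauto)
    have h1 : k.val + 1 = 1 + k.val := by omega
    rw [h1]
    apply decides_mvs_right (by omega)
    exact (decides_ret _ _ _ _).congr (by simp [nr])
  · obtain ⟨j', rfl⟩ : ∃ j', j = j' + 1 := ⟨j - 1, by omega⟩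
    have hz : (j' + 1) * 2 ^ h = j' * 2 ^ h + 2 ^ h := by ring
    have hpos : (j' + 1) * 2 ^ h = (j' * 2 ^ h + 2 ^ h - 1) + 1 := by omega
    obtain ⟨a, b, ha, hτ, -⟩ := hA.2 (j' * 2 ^ h + 2 ^ h - 1) (by omega)
    refine (decides_ite (φ := False) (ψ := True) (χ := nr h rel p0 w ((j' + 1) * 2 ^ h) k)
      (y := j' * 2 ^ h + 2 ^ h - 1) ?_ (fun h => absurd h (by simp)) (fun _ => ?_)).congr (by tauto)
    · rw [hpos]
      exact decides_lm_false hτ (by omega)
    · have h1 : j' * 2 ^ h + 2 ^ h - 1 = j' * 2 ^ h + (2 ^ h - 1) := by omega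
      rw [h1]
      apply decides_mvs_left (by omega)
      have h2 : (j' + 1) * 2 ^ h + k.val + 1 = j' * 2 ^ h + (2 ^ h + k.val + 1) := by omega
      rw [h2]
      apply decides_thenRight _ (by omega)
      refine (decides_ask hG hP hB le_rfl (fun _ => le_rfl) (by omega) hm).congr ?_
      have h3 := mem_block hA j' (2 ^ h) k (by omega) (by omega)
      rw [← hz] at h3
      rw [← h3]
      simp only [gstart, decide_eq_true_eq]
      constructor
      · rintro ⟨p, q, h4, h5, rfl⟩
        exact ⟨p, h4, h5⟩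
      · rintro ⟨p, h4, h5⟩
        exact ⟨p, k, h4, h5, rfl⟩

theorem decides_fin (hG : S_graph) (hP : P.DecidesConn) (hm : (2 ^ h + 2 ^ h) * 2 ^ h + 2 ≤ m)
    {w : List A} {τ : ℕ → Sym (WS A)} {y hi j : ℕ}
    {k : Fin (2 ^ h)} (hA : Ann h rel p0 w τ y) (hy : y = j * 2 ^ h + k.val) (hhi : y + 1 ≤ hi) :
    Decides τ hi (finP h rel p0 facc P k) y (y + 1) (∃ f, facc f = true ∧ nr h rel p0 w y f) := by
  have hB : 1 ≤ 2 ^ h := Nat.one_le_two_pow
  have hk := k.isLt
  have hm1 : (k.val + 1) * 2 ^ h + 2 ≤ m := by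
    refine le_trans ?_ hm
    have : (k.val + 1) * 2 ^ h ≤ (2 ^ h + 2 ^ h) * 2 ^ h := Nat.mul_le_mul_right _ (by omega)
    omega
  have hm2 : (2 ^ h + k.val + 1) * 2 ^ h + 2 ≤ m := by
    refine le_trans ?_ hm
    have : (2 ^ h + k.val + 1) * 2 ^ h ≤ (2 ^ h + 2 ^ h) * 2 ^ h := Nat.mul_le_mul_right _ (by omega)
    omega
  rw [hy]
  apply decides_mvs_left (by omega)
  rcases Nat.eq_zero_or_pos j with hj | hj
  · subst hj
    have hz : 0 * 2 ^ h = 0 := Nat.zero_mul _
    simp only [hz, Nat.zero_add] at hy ⊢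
    refine (decides_ite (φ := True) (ψ := ∃ f, facc f = true ∧ nr h rel p0 w k.val f) (χ := False)
      (decides_lm_true hA.1) (fun _ => ?_) (fun h => absurd trivial h)).congr (by simp)
    have h2 := decides_thenRight (n := k.val + 1) (decides_ask (rel := rel) (tgt := facc) (τ := τ) (hi := hi)
      (y := 0) (mode := some p0) hG hP (O := k.val + 1) (n := k.val) (by omega) (by omega)
      (fun h => absurd h (by simp)) (by omega) hm1) (by omega)
    have h3 := decides_mvs_left (n := 1) (by omega) h2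
    rw [Nat.zero_add, Nat.zero_add] at h3
    refine h3.congr ?_
    simp only [gstart, Nat.zero_add]
    constructor
    · rintro ⟨p, q, rfl, h5, h6⟩
      have h4 := link hA k.val 0 q (by omega)
      simp only [Nat.zero_add] at h4
      exact ⟨q, h6, h4.1 ⟨p, rfl, h5⟩⟩
    · rintro ⟨f, h6, h5⟩
      have h4 := link hA k.val 0 f (by omega)
      simp only [Nat.zero_add] at h4
      obtain ⟨p, h7, h8⟩ := h4.2 h5
      exact ⟨p, f, h7, h8, h6⟩
  · obtain ⟨j', rfl⟩ : ∃ j', j = j' + 1 := ⟨j - 1, by omega⟩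
    have hz : (j' + 1) * 2 ^ h = j' * 2 ^ h + 2 ^ h := by ring
    have hpos : (j' + 1) * 2 ^ h = (j' * 2 ^ h + 2 ^ h - 1) + 1 := by omega
    obtain ⟨a, b, ha, hτ, -⟩ := hA.2 (j' * 2 ^ h + 2 ^ h - 1) (by omega)
    refine (decides_ite (φ := False) (ψ := True)
      (χ := ∃ f, facc f = true ∧ nr h rel p0 w ((j' + 1) * 2 ^ h + k.val) f)
      (y := j' * 2 ^ h + 2 ^ h - 1) ?_ (fun h => absurd h (by simp)) (fun _ => ?_)).congr (by tauto)
    · rw [hpos]
      exact decides_lm_false hτ (by omega)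
    · have h1 : j' * 2 ^ h + 2 ^ h - 1 = j' * 2 ^ h + (2 ^ h - 1) := by omega
      rw [h1]
      apply decides_mvs_left (by omega)
      have h2 : (j' + 1) * 2 ^ h + k.val + 1 = j' * 2 ^ h + (2 ^ h + k.val + 1) := by omega
      rw [h2]
      apply decides_thenRight _ (by omega)
      refine (decides_ask hG hP (by omega) le_rfl (fun _ => by omega) (by omega) hm2).congr ?_
      have h3 : j' * 2 ^ h + (2 ^ h + k.val) = (j' + 1) * 2 ^ h + k.val := by omega
      simp only [gstart]
      constructor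
      · rintro ⟨p, q, h4, h5, h6⟩
        refine ⟨q, h6, ?_⟩
        rw [← h3]
        exact (mem_block hA j' (2 ^ h + k.val) q (by omega) (by omega)).1 ⟨p, h4, h5⟩
      · rintro ⟨f, h6, h5⟩
        rw [← h3] at h5
        obtain ⟨p, h7, h8⟩ := (mem_block hA j' (2 ^ h + k.val) f (by omega) (by omega)).2 h5
        exact ⟨p, f, h7, h8, h6⟩

end correctness

end Pool.Agent.H644.LB
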