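import Pool.Agent.H644.LB.Upper

/-! One-way nondeterministic automata. -/

set_option autoImplicit false

namespace Pool.Agent.H644.LB

open Pool.Agent.H630R2.LA (WS nr nr_zero LimAut card_WS)

section

variable {A σ : Type} (M : NFA A σ)

/-- The steps of the automaton with an additional initial state. -/
def oStep (a : A) : Option σ → Option σ → Prop
  | none, some q => ∃ s ∈ M.start, q ∈ M.step s a
  | some p, some q => q ∈ M.step p a
  | _, none => False

/-- The final states of the automaton with an additional initial state. -/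
def oAcc : Option σ → Prop
  | none => ∃ s ∈ M.start, s ∈ M.accept
  | some q => q ∈ M.accept

/-- The states reached by the first `t` letters of `w`. -/
def oReach (w : List A) : ℕ → Option σ → Prop
  | 0, x => x = none
  | t + 1, x => ∃ y, oReach w t y ∧ ∃ a, w[t]? = some a ∧ oStep M a y x

theorem oReach_succ (w : List A) (t : ℕ) (ht : t < w.length) (x : Option σ) :
    oReach M w (t + 1) x ↔ ∃ q, x = some q ∧ q ∈ M.eval (w.take (t + 1)) := by
  induction t generalizing x with
  | zero =>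
    have hw : w[0]? = some w[0] := List.getElem?_eq_getElem ht
    have htake : w.take 1 = [w[0]] := by
      cases w with
      | nil => simp at ht
      | cons a l => simp
    simp only [oReach]
    rw [hw, Nat.zero_add, htake, NFA.eval_singleton]
    constructor
    · rintro ⟨y, rfl, a, ha, hs⟩
      cases ha
      cases x with
      | none => exact hs.elim
      | some q =>
        obtain ⟨s, h1, h2⟩ := hs
        exact ⟨q, rfl, NFA.mem_stepSet.2 ⟨s, h1, h2⟩⟩
    · rintro ⟨q, rfl, hq⟩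
      obtain ⟨s, h1, h2⟩ := NFA.mem_stepSet.1 hq
      exact ⟨none, rfl, _, rfl, s, h1, h2⟩
  | succ t ih =>
    have hw : w[t + 1]? = some w[t + 1] := List.getElem?_eq_getElem ht
    have htake : w.take (t + 1 + 1) = w.take (t + 1) ++ [w[t + 1]] :=
      (List.take_append_getElem ht).symm
    rw [htake, NFA.eval_append_singleton]
    change (∃ y, oReach M w (t + 1) y ∧ ∃ a, w[t + 1]? = some a ∧ oStep M a y x) ↔ _
    rw [hw]
    constructor
    · rintro ⟨y, hy, a, ha, hs⟩
      cases ha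
      obtain ⟨p, rfl, hp⟩ := (ih (by omega) y).1 hy
      cases x with
      | none => exact hs.elim
      | some q => exact ⟨q, rfl, NFA.mem_stepSet.2 ⟨p, hp, hs⟩⟩
    · rintro ⟨q, rfl, hq⟩
      obtain ⟨p, h1, h2⟩ := NFA.mem_stepSet.1 hq
      exact ⟨some p, (ih (by omega) _).2 ⟨p, rfl, h1⟩, _, rfl, h2⟩

theorem oAccepts (w : List A) :
    (∃ x, oReach M w w.length x ∧ oAcc M x) ↔ w ∈ M.accepts := by
  rw [NFA.mem_accepts]
  change _ ↔ ∃ s ∈ M.accept, s ∈ M.eval w
  cases w with
  | nil =>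
    simp only [List.length_nil, oReach]
    rw [NFA.eval_nil]
    constructor
    · rintro ⟨x, rfl, s, h1, h2⟩
      exact ⟨s, h2, h1⟩
    · rintro ⟨s, h1, h2⟩
      exact ⟨none, rfl, s, h2, h1⟩
  | cons a l =>
    have h := oReach_succ M (a :: l) l.length (by simp)
    have e : (a :: l).take (l.length + 1) = a :: l := by simp
    rw [e] at h
    rw [List.length_cons]
    constructor
    · rintro ⟨x, h1, h2⟩
      obtain ⟨q, rfl, hq⟩ := (h x).1 h1
      exact ⟨q, h2, hq⟩
    · rintro ⟨q, h1, h2⟩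
      exact ⟨some q, (h _).2 ⟨q, rfl, h2⟩, h1⟩

end

open Classical in
/-- Every one-way nondeterministic automaton with less than `2 ^ h` states has an equivalent deterministic
1-limited automaton whose number of states is at most `64 * 4 ^ h` times the size of a branching program for
connectivity. -/
theorem nfa_det (hG : S_graph) {A σ : Type} [Finite A] [Finite σ] (M : NFA A σ) (strict : Prop) (h m : ℕ)
    (hm : (2 ^ h + 2 ^ h) * 2 ^ h + 2 ≤ m) (P : BranchProg m) (hP : P.DecidesConn)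
    (hcard : Nat.card σ + 1 ≤ 2 ^ h) :
    ∃ M' : LimAut A, M'.Deterministic ∧ (∀ w, w ∈ M'.language strict ↔ w ∈ M.accepts) ∧
      Nat.card M'.Q ≤ 64 * (P.size * (2 ^ h * 2 ^ h)) ∧ Nat.card M'.W = 3 * Nat.card A + 1 := by
  obtain ⟨e⟩ : Nonempty (Option σ ↪ Fin (2 ^ h)) := by
    have e1 := Finite.equivFin (Option σ)
    rw [Finite.card_option] at e1
    exact ⟨e1.toEmbedding.trans (Fin.castLEEmb hcard)⟩
  let rel : A → Fin (2 ^ h) → Fin (2 ^ h) → Bool := fun a i j =>
    decide (∃ x y, e x = i ∧ e y = j ∧ oStep M a x y)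
  let p0 : Fin (2 ^ h) := e none
  let facc : Fin (2 ^ h) → Bool := fun i => decide (∃ x, e x = i ∧ oAcc M x)
  refine ⟨detM h rel p0 facc P, detM_det h rel p0 facc P, ?_, card_QS, card_WS A⟩
  intro w
  rw [detM_language P hG hP hm, ← oAccepts]
  have key : ∀ t i, nr h rel p0 w t i ↔ ∃ x, e x = i ∧ oReach M w t x := by
    intro t
    induction t with
    | zero =>
      intro i
      rw [nr_zero]
      constructor
      · rintro rfl
        exact ⟨_, rfl, rfl⟩
      · rintro ⟨x, rfl, hx⟩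
        have hx' : x = none := hx
        rw [hx']
    | succ t ih =>
      intro i
      constructor
      · rintro ⟨p, hp, a, ha, hr⟩
        obtain ⟨x, hx1, hx2⟩ := (ih p).1 hp
        obtain ⟨x', y, hx', hy, hs⟩ := of_decide_eq_true hr
        have : x' = x := e.injective (by rw [hx', hx1])
        subst this
        exact ⟨y, hy, x', hx2, a, ha, hs⟩
      · rintro ⟨y, hy, x, hx, a, ha, hs⟩
        exact ⟨e x, (ih _).2 ⟨x, rfl, hx⟩, a, ha, decide_eq_true ⟨x, y, rfl, hy, hs⟩⟩
  constructor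
  · rintro ⟨f, hf, hn⟩
    obtain ⟨x, hx1, hx2⟩ := (key _ f).1 hn
    obtain ⟨x', hx', hs⟩ := of_decide_eq_true hf
    have : x' = x := e.injective (by rw [hx', hx1])
    subst this
    exact ⟨x', hx2, hs⟩
  · rintro ⟨x, hx, hs⟩
    exact ⟨e x, decide_eq_true ⟨x, rfl, hs⟩, (key _ _).2 ⟨x, rfl, hx⟩⟩

/-- The same, in terms of the number of states. -/
theorem nfa_upper (hG : S_graph) (strict : Prop) (N m : ℕ) (hN : 1 ≤ N) (hm : 34 * N ^ 2 ≤ m)
    (A σ : Type) [Finite A] [Finite σ] (M : NFA A σ) (hcard : Nat.card σ ≤ N) :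
    ∃ M' : LimAut A, M'.Deterministic ∧ (∀ w, w ∈ M'.language strict ↔ w ∈ M.accepts) ∧
      Nat.card M'.Q ≤ 1024 * N ^ 2 * connSize m ∧ Nat.card M'.W = 3 * Nat.card A + 1 := by
  obtain ⟨P, hP, hPs⟩ := exists_least m
  obtain ⟨h, h1, h2⟩ : ∃ h, N + 1 ≤ 2 ^ h ∧ 2 ^ h ≤ 4 * N := by
    refine ⟨Nat.clog 2 (N + 1), Nat.le_pow_clog (by norm_num) _, ?_⟩
    have h3 : 2 ^ (Nat.clog 2 (N + 1)).pred < N + 1 := Nat.pow_pred_clog_lt_self (by norm_num) (by omega)
    have h4 : 1 ≤ Nat.clog 2 (N + 1) := Nat.clog_pos (by norm_num) (by omega)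
    have h5 : 2 ^ Nat.clog 2 (N + 1) = 2 * 2 ^ (Nat.clog 2 (N + 1)).pred := by
      rw [← pow_succ', Nat.pred_eq_sub_one]
      congr 1
      omega
    omega
  have h3 : 2 ^ h * 2 ^ h ≤ 16 * N ^ 2 := by
    calc 2 ^ h * 2 ^ h ≤ (4 * N) * (4 * N) := Nat.mul_le_mul h2 h2
      _ = 16 * N ^ 2 := by ring
  have h4 : (2 ^ h + 2 ^ h) * 2 ^ h + 2 ≤ m := by
    have h5 : (2 ^ h + 2 ^ h) * 2 ^ h = 2 * (2 ^ h * 2 ^ h) := by ring
    have h6 : 1 ≤ N ^ 2 := Nat.one_le_pow _ _ hN
    omega
  obtain ⟨M', m1, m2, m3, m4⟩ := nfa_det hG M strict h m h4 P hP (by omega)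
  refine ⟨M', m1, m2, m3.trans ?_, m4⟩
  rw [hPs]
  calc 64 * (connSize m * (2 ^ h * 2 ^ h)) ≤ 64 * (connSize m * (16 * N ^ 2)) :=
        Nat.mul_le_mul_left _ (Nat.mul_le_mul_left _ h3)
    _ = 1024 * N ^ 2 * connSize m := by ring

end Pool.Agent.H644.LB
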