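import Pool.Agent.H644.LB.BP

/-! The simulation of a branching program by a two-way head whose home cell is `y`: the answer to the query
`u v` is found in the cell `y + off u v`. -/

set_option autoImplicit false

namespace Pool.Agent.H644.LB

open Cmd

section

variable {S : Type} {m : ℕ} (P : BranchProg m) (O : ℕ) (off : Fin m → Fin m → ℕ)
  (ph : Fin m → Fin m → S → Bool)

/-- `c`, at most `O`. -/
def cap (c : ℕ) : Fin (O + 1) := ⟨min c O, by omega⟩

theorem cap_val {c : ℕ} (h : c ≤ O) : (cap O c).val = c := min_eq_left h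

/-- The control states: on the way to the cell of a query, and back. -/
abbrev RS : Type := (Fin P.size × Fin (O + 1)) ⊕ (Fin P.size × Bool × Fin (O + 1))

/-- Begin with the node `v`. -/
def ent (v : Fin P.size) : RS P O ⊕ Bool :=
  match P.label v with
    | Sum.inr b => Sum.inr b
    | Sum.inl e => Sum.inl (Sum.inl (v, cap O (off e.1 e.2)))

def bpNext : RS P O → S → RS P O ⊕ Bool
  | Sum.inl (v, c), σ =>
    if c.val = 0 then
      match P.label v with
        | Sum.inr b => Sum.inr b
        | Sum.inl e =>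
          if off e.1 e.2 ≤ 1 then ent P O off (P.succ v (ph e.1 e.2 σ))
          else Sum.inl (Sum.inr (v, ph e.1 e.2 σ, cap O (off e.1 e.2 - 1)))
    else Sum.inl (Sum.inl (v, cap O (c.val - 1)))
  | Sum.inr (v, b, c), _ =>
    if c.val ≤ 1 then ent P O off (P.succ v b) else Sum.inl (Sum.inr (v, b, cap O (c.val - 1)))

def bpDir : RS P O → S → Bool
  | Sum.inl (_, c), _ => decide (c.val ≠ 0)
  | Sum.inr _, _ => false

/-- The program. -/
def bpProg : Cmd S := prog (RS P O) inferInstance (ent P O off P.start) (bpNext P O off ph) (bpDir P O)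

theorem cnt_bpProg : (bpProg P O off ph).cnt = 3 * P.size * (O + 1) := by
  show Nat.card (RS P O) = _
  rw [Nat.card_sum, Nat.card_prod, Nat.card_prod, Nat.card_prod]
  simp only [Nat.card_eq_fintype_card, Fintype.card_fin, Fintype.card_bool]
  ring

variable {P O off ph}

theorem back {τ : ℕ → S} {hi y z : ℕ} {b' : Bool} {v : Fin P.size} {b : Bool}
    (h : PRun τ hi (bpNext P O off ph) (bpDir P O) (ent P O off (P.succ v b)) y b' z) :
    ∀ c, 1 ≤ c → c ≤ O → y + c ≤ hi →
      PRun τ hi (bpNext P O off ph) (bpDir P O) (Sum.inl (Sum.inr (v, b, cap O c))) (y + c) b' z := by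
  intro c
  induction c with
  | zero => intro h1; omega
  | succ c ih =>
    intro _ hc hy
    refine PRun.step _ _ (y + c) _ _ hy (fun h => absurd h (by simp [bpDir])) (fun _ => by omega) ?_
    simp only [bpNext, cap_val O hc]
    by_cases h0 : c = 0
    · subst h0
      simpa using h
    · rw [if_neg (by omega)]
      exact ih (by omega) (by omega) (by omega)

theorem forth {τ : ℕ → S} {hi z : ℕ} {b' : Bool} {v : Fin P.size} :
    ∀ (c y : ℕ), c ≤ O → y + c ≤ hi + 1 →
    PRun τ hi (bpNext P O off ph) (bpDir P O) (Sum.inl (Sum.inl (v, cap O 0))) (y + c) b' z →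
      PRun τ hi (bpNext P O off ph) (bpDir P O) (Sum.inl (Sum.inl (v, cap O c))) y b' z := by
  intro c
  induction c with
  | zero => intro y _ _ h; exact h
  | succ c ih =>
    intro y hc hy h
    refine PRun.step _ _ (y + 1) _ _ (by omega) (fun _ => rfl) (fun h => absurd h (by
      simp [bpDir, cap_val O hc])) ?_
    simp only [bpNext, cap_val O hc]
    rw [if_neg (by omega)]
    have h2 := ih (y + 1) (by omega) (by omega) (by
      have e : y + 1 + c = y + (c + 1) := by omega
      rw [e]; exact h)
    simpa using h2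

theorem run_eval {τ : ℕ → S} {hi y : ℕ} (hO : y + O ≤ hi)
    (hoff : ∀ u v, 1 ≤ off u v ∧ off u v ≤ O) {v : Fin P.size} {b : Bool}
    (h : P.Eval (fun u v => ph u v (τ (y + off u v))) v b) :
    PRun τ hi (bpNext P O off ph) (bpDir P O) (ent P O off v) y b y := by
  induction h with
  | out v b h =>
    unfold ent
    rw [h]
    exact PRun.done _ _
  | query v e b h hr ih =>
    obtain ⟨h1, h2⟩ := hoff e.1 e.2
    have e1 : ent P O off v = Sum.inl (Sum.inl (v, cap O (off e.1 e.2))) := by
      unfold ent
      rw [h]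
    rw [e1]
    refine forth _ _ h2 (by omega) ?_
    refine PRun.step _ _ (y + (off e.1 e.2 - 1)) _ _ (by omega) (fun h => absurd h (by
      simp [bpDir, cap])) (fun _ => by omega) ?_
    have h3 : (cap O 0).val = 0 := cap_val O (Nat.zero_le _)
    simp only [bpNext, h3, if_true, h]
    by_cases h4 : off e.1 e.2 ≤ 1
    · rw [if_pos h4]
      have h5 : off e.1 e.2 - 1 = 0 := by omega
      rw [h5]
      exact ih
    · rw [if_neg h4]
      exact back ih _ (by omega) (by omega) (by omega)

theorem decides_bp (hP : P.DecidesConn) {τ : ℕ → S} {hi y : ℕ} (hO : y + O ≤ hi)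
    (hoff : ∀ u v, 1 ≤ off u v ∧ off u v ≤ O) :
    Decides τ hi (bpProg P O off ph) y y (Conn fun u v => ph u v (τ (y + off u v))) := by
  obtain ⟨b, h1, h2⟩ := hP fun u v => ph u v (τ (y + off u v))
  exact ⟨b, Run.prog _ _ _ _ _ _ _ _ (run_eval hO hoff h1), h2⟩

end

end Pool.Agent.H644.LB
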