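import Pool.Agent.H644.LB.Det
import Pool.Agent.H644.LB.Exists
import Pool.Graph.R_seed8.H630R2.LA.Upper

/-! The size of the deterministic machine, and the simulation of 1-limited automata. Adapted from
`H630R2/LA/Upper.lean`. -/

set_option autoImplicit false

namespace Pool.Agent.H644.LB

open Cmd Relation

open Pool.Agent.H630R2.LA (Sym WS ix isLm nr nr_zero Ann LimAut Cfg Step init initTape keep rewrite_keep
  finite_WS lift not_mem_of_stuck Sym.rewrite card_WS numTrans_le nstep nreach mem_language card_table ext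
  detSize costs D)

section card

variable {A : Type} {h : ℕ} {rel : A → Fin (2 ^ h) → Fin (2 ^ h) → Bool}
    {p0 : Fin (2 ^ h)} {facc : Fin (2 ^ h) → Bool} {m : ℕ} {P : BranchProg m}

theorem size_pos (P : BranchProg m) : 1 ≤ P.size := by
  have := P.start.isLt
  omega

theorem arithA (B s k : ℕ) (hs : 1 ≤ s) (hk : k < B) :
    1 + (k + (1 + (k + 0 + (B - 1 + (3 * s * (B + 1) + 2 * (B + k + 1)))))) ≤ 14 * (s * B) := by
  have h1 : B ≤ s * B := Nat.le_mul_of_pos_left _ (by omega)
  have h2 : s ≤ s * B := Nat.le_mul_of_pos_right _ (by omega)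
  have h3 : 3 * s * (B + 1) = 3 * (s * B) + 3 * s := by ring
  rw [h3]
  omega

theorem cnt_nextP (k : Fin (2 ^ h)) :
    (nextP h rel p0 P k).cnt ≤ 14 * (P.size * 2 ^ h) := by
  have hk := k.isLt
  simp only [nextP, mainP, askP, cnt_mvs, cnt, cnt_thenRight, cnt_bpProg]
  exact arithA _ _ _ (size_pos P) hk

theorem arithB (B s k : ℕ) (hs : 1 ≤ s) (hk : k < B) :
    k + (1 + (1 + (3 * s * (k + 1 + 1) + 2 * (k + 1)) + (B - 1 + (3 * s * (B + k + 1) + 2 * (B + k + 1)))))
      ≤ 21 * (s * B) := by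
  have h1 : B ≤ s * B := Nat.le_mul_of_pos_left _ (by omega)
  have h2 : s ≤ s * B := Nat.le_mul_of_pos_right _ (by omega)
  have h4 : s * k + s ≤ s * B := by
    have : s * (k + 1) ≤ s * B := Nat.mul_le_mul_left _ hk
    nlinarith
  have h3 : 3 * s * (B + k + 1) = 3 * (s * B) + 3 * (s * k) + 3 * s := by ring
  have h5 : 3 * s * (k + 1 + 1) = 3 * (s * k) + 6 * s := by ring
  rw [h3, h5]
  omega

theorem cnt_finP (k : Fin (2 ^ h)) :
    (finP h rel p0 facc P k).cnt ≤ 21 * (P.size * 2 ^ h) := by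
  have hk := k.isLt
  simp only [finP, askP, cnt_mvs, cnt, cnt_thenRight, cnt_bpProg]
  exact arithB _ _ _ (size_pos P) hk

theorem arithC (B s s1 s2 : ℕ) (hB : 1 ≤ B) (hs : 1 ≤ s) (h1 : s1 ≤ B * (14 * (s * B)))
    (h2 : s2 ≤ B * (21 * (s * B))) : B * 2 + (s1 + (s2 + 2)) ≤ 64 * (s * (B * B)) := by
  have h5 : B * (14 * (s * B)) = 14 * (s * (B * B)) := by ring
  have h6 : B * (21 * (s * B)) = 21 * (s * (B * B)) := by ring
  rw [h5] at h1
  rw [h6] at h2
  have h3 : B ≤ B * B := Nat.le_mul_of_pos_left _ (by omega)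
  have h4 : B * B ≤ s * (B * B) := Nat.le_mul_of_pos_left _ (by omega)
  omega

theorem card_QS : Nat.card (QS h rel p0 facc P) ≤ 64 * (P.size * (2 ^ h * 2 ^ h)) := by
  have hB : 1 ≤ 2 ^ h := Nat.one_le_two_pow
  have hs := size_pos P
  have e : Nat.card (QS h rel p0 facc P) = 2 ^ h * 2 +
      ((∑ k : Fin (2 ^ h), (nextP h rel p0 P k).cnt) +
        ((∑ k : Fin (2 ^ h), (finP h rel p0 facc P k).cnt) + 2)) := by
    unfold QS
    rw [Nat.card_sum, Nat.card_sum, Nat.card_sum, Nat.card_prod, Nat.card_sigma, Nat.card_sigma]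
    simp only [card_St, Nat.card_eq_fintype_card, Fintype.card_fin, Fintype.card_bool]
  have s1 : ∑ k : Fin (2 ^ h), (nextP h rel p0 P k).cnt ≤ 2 ^ h * (14 * (P.size * 2 ^ h)) := by
    have : ∑ k : Fin (2 ^ h), (nextP h rel p0 P k).cnt ≤ ∑ _k : Fin (2 ^ h), (14 * (P.size * 2 ^ h)) :=
      Finset.sum_le_sum fun k _ => cnt_nextP k
    refine this.trans ?_
    simp
  have s2 : ∑ k : Fin (2 ^ h), (finP h rel p0 facc P k).cnt ≤ 2 ^ h * (21 * (P.size * 2 ^ h)) := by
    have : ∑ k : Fin (2 ^ h), (finP h rel p0 facc P k).cnt ≤ ∑ _k : Fin (2 ^ h), (21 * (P.size * 2 ^ h)) :=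
      Finset.sum_le_sum fun k _ => cnt_finP k
    refine this.trans ?_
    simp
  rw [e]
  exact arithC _ _ _ _ hB hs s1 s2

theorem size_detM [Finite A] :
    (detM h rel p0 facc P : LimAut A).size ≤ 2 ^ (2 * h + 11) * P.size * (Nat.card A + 1) := by
  have h1 : (detM h rel p0 facc P : LimAut A).numTrans ≤
      Nat.card (QS h rel p0 facc P) * (Nat.card (WS A) + 2) := numTrans_le _ (detM_det h rel p0 facc P)
  have h2 := card_QS (rel := rel) (p0 := p0) (facc := facc) (P := P)
  have h3 := card_WS A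
  have hpos : 1 ≤ Nat.card (QS h rel p0 facc P) := by
    have := finite_QS h rel p0 facc P
    have : Nonempty (QS h rel p0 facc P) := ⟨enQ h rel p0 facc P true⟩
    exact Nat.card_pos
  have hsize : (detM h rel p0 facc P : LimAut A).size = Nat.card (QS h rel p0 facc P) + Nat.card A +
      (Nat.card (WS A) + 2) + 5 * (detM h rel p0 facc P : LimAut A).numTrans + 1 +
      ({enQ h rel p0 facc P true} : Set (QS h rel p0 facc P)).ncard := rfl
  rw [hsize, Set.ncard_singleton, h3]
  rw [h3] at h1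
  have h4 : 2 ^ (2 * h + 11) * P.size = 32 * (64 * (P.size * (2 ^ h * 2 ^ h))) := by
    rw [pow_add, pow_mul']
    ring
  rw [h4]
  generalize (detM h rel p0 facc P : LimAut A).numTrans = T at *
  generalize Nat.card (QS h rel p0 facc P) = q at *
  generalize 64 * (P.size * (2 ^ h * 2 ^ h)) = Z at *
  generalize Nat.card A = a at *
  have h5 : q * (3 * a + 1 + 2) = 3 * (q * (a + 1)) := by ring
  rw [h5] at h1
  have h6 : a + 1 ≤ q * (a + 1) := Nat.le_mul_of_pos_left _ hpos
  have h7 : q ≤ q * (a + 1) := Nat.le_mul_of_pos_right _ (by omega)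
  have h8 : q * (a + 1) ≤ Z * (a + 1) := Nat.mul_le_mul_right _ h2
  have h9 : 32 * Z * (a + 1) = 32 * (Z * (a + 1)) := by ring
  rw [h9]
  omega

end card

section simulate

variable {A : Type} {strict : Prop} {M : LimAut A}

open Classical in
/-- Every 1-limited automaton whose table automaton has at most `2 ^ h` states has an equivalent
deterministic one. -/
theorem exists_det (hG : S_graph) [Finite A] (M : LimAut A) (strict : Prop) (h m : ℕ)
    (hm : (2 ^ h + 2 ^ h) * 2 ^ h + 2 ≤ m) (P : BranchProg m) (hP : P.DecidesConn)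
    (hcard : Nat.card (Set (M.Q × M.Q) × M.Q) ≤ 2 ^ h) :
    ∃ M' : LimAut A, M'.Deterministic ∧ M'.language strict = M.language strict ∧
      M'.size ≤ 2 ^ (2 * h + 11) * P.size * (Nat.card A + 1) := by
  have := M.finQ
  obtain ⟨e⟩ : Nonempty (Set (M.Q × M.Q) × M.Q ↪ Fin (2 ^ h)) := by
    have e1 := Finite.equivFin (Set (M.Q × M.Q) × M.Q)
    exact ⟨e1.toEmbedding.trans (Fin.castLEEmb hcard)⟩
  let rel : A → Fin (2 ^ h) → Fin (2 ^ h) → Bool := fun a i j =>
    decide (∃ x y, e x = i ∧ e y = j ∧ nstep strict M (.sym (M.inp a)) x y)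
  let p0 : Fin (2 ^ h) := e (ext strict M ∅ .lm, M.q0)
  let facc : Fin (2 ^ h) → Bool := fun i =>
    decide (∃ x y, e x = i ∧ nstep strict M .rm x y ∧ y.2 ∈ M.F)
  refine ⟨detM h rel p0 facc P, detM_det h rel p0 facc P, ?_, size_detM⟩
  ext w
  rw [detM_language P hG hP hm, mem_language]
  have key : ∀ t, t ≤ w.length → ∀ i, nr h rel p0 w t i ↔
      ∃ x, e x = i ∧ nreach strict M (initTape M w) t x := by
    intro t
    induction t with
    | zero =>
      intro _ i
      rw [nr_zero]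
      constructor
      · rintro rfl
        exact ⟨_, rfl, rfl⟩
      · rintro ⟨x, rfl, hx⟩
        have hx' : x = (ext strict M ∅ .lm, M.q0) := hx
        rw [hx']
    | succ t ih =>
      intro ht i
      have hwt : w[t]? = some w[t] := List.getElem?_eq_getElem (by omega)
      have hcell : initTape M w (t + 1) = .sym (M.inp w[t]) := by
        simp only [initTape, hwt]
      constructor
      · rintro ⟨p, hp, a, ha, hr⟩
        rw [hwt] at ha
        cases ha
        obtain ⟨x, hx1, hx2⟩ := (ih (by omega) p).1 hp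
        have hr' := of_decide_eq_true hr
        obtain ⟨x', y, hx', hy, hs⟩ := hr'
        have : x' = x := e.injective (by rw [hx', hx1])
        subst this
        refine ⟨y, hy, x', hx2, ?_⟩
        rw [hcell]
        exact hs
      · rintro ⟨y, hy, x, hx, hs⟩
        refine ⟨e x, (ih (by omega) _).2 ⟨x, rfl, hx⟩, w[t], hwt, ?_⟩
        rw [hcell] at hs
        exact decide_eq_true ⟨x, y, rfl, hy, hs⟩
  have hlast : initTape M w (w.length + 1) = .rm := by
    simp only [initTape, List.getElem?_eq_none (le_refl w.length)]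
  constructor
  · rintro ⟨f, hf, hn⟩
    obtain ⟨x, hx1, hx2⟩ := (key _ le_rfl f).1 hn
    obtain ⟨x', y, hx', hs, hy⟩ := of_decide_eq_true hf
    have : x' = x := e.injective (by rw [hx', hx1])
    subst this
    refine ⟨y.1, y.2, ⟨x', hx2, ?_⟩, hy⟩
    rw [hlast]
    exact hs
  · rintro ⟨R, f, ⟨x, hx, hs⟩, hf⟩
    rw [hlast] at hs
    exact ⟨e x, decide_eq_true ⟨x, (R, f), rfl, hs, hf⟩, (key _ le_rfl _).2 ⟨x, rfl, hx⟩⟩

/-- A branching program of the least size. -/
theorem exists_least (m : ℕ) : ∃ P : BranchProg m, P.DecidesConn ∧ P.size = connSize m := by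
  obtain ⟨P, hP⟩ := bp_exists m
  exact Nat.sInf_mem (s := {s | ∃ P : BranchProg m, P.DecidesConn ∧ P.size = s}) ⟨_, P, hP, rfl⟩

theorem two_pow_bound (h m : ℕ) (hm : 2 ^ (2 * h + 2) ≤ m) : (2 ^ h + 2 ^ h) * 2 ^ h + 2 ≤ m := by
  refine le_trans ?_ hm
  have hB : 1 ≤ 2 ^ h := Nat.one_le_two_pow
  have : 2 ^ (2 * h + 2) = 4 * (2 ^ h * 2 ^ h) := by
    rw [pow_add, pow_mul']
    ring
  rw [this]
  nlinarith

/-- Every 1-limited automaton of size `n` has an equivalent deterministic one whose size is at most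
`2 ^ (2 * n ^ 2 + n + 11)` times the least size of the branching programs for connectivity. -/
theorem upper (hG : S_graph) [Finite A] (M : LimAut A) (strict : Prop) (m : ℕ)
    (hm : 2 ^ (2 * M.size ^ 2 + 2) ≤ m) :
    ∃ M' : LimAut A, M'.Deterministic ∧ M'.language strict = M.language strict ∧
      M'.size ≤ 2 ^ (2 * M.size ^ 2 + M.size + 11) * connSize m := by
  have := M.finQ
  obtain ⟨P, hP, hPs⟩ := exists_least m
  have hq : Nat.card M.Q + Nat.card A + 3 ≤ M.size := by
    unfold LimAut.size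
    omega
  have hq1 : 1 ≤ Nat.card M.Q := by
    have : Nonempty M.Q := ⟨M.q0⟩
    exact Nat.card_pos
  generalize hn : M.size = n at *
  have hcard : Nat.card (Set (M.Q × M.Q) × M.Q) ≤ 2 ^ (n ^ 2) := by
    rw [card_table]
    calc 2 ^ (Nat.card M.Q * Nat.card M.Q) * Nat.card M.Q
        ≤ 2 ^ (Nat.card M.Q * Nat.card M.Q) * 2 ^ (Nat.card M.Q) :=
          Nat.mul_le_mul_left _ (Nat.lt_two_pow_self).le
      _ = 2 ^ (Nat.card M.Q * Nat.card M.Q + Nat.card M.Q) := by rw [pow_add]
      _ ≤ 2 ^ (n ^ 2) := by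
          apply Nat.pow_le_pow_right (by omega)
          nlinarith
  obtain ⟨M', h1, h2, h3⟩ := exists_det hG M strict (n ^ 2) m (two_pow_bound _ _ hm) P hP hcard
  refine ⟨M', h1, h2, h3.trans ?_⟩
  have h4 : Nat.card A + 1 ≤ 2 ^ n := by
    calc Nat.card A + 1 ≤ n := by omega
      _ ≤ 2 ^ n := (Nat.lt_two_pow_self).le
  rw [hPs]
  calc 2 ^ (2 * n ^ 2 + 11) * connSize m * (Nat.card A + 1)
      ≤ 2 ^ (2 * n ^ 2 + 11) * connSize m * 2 ^ n := Nat.mul_le_mul_left _ h4
    _ = 2 ^ (2 * n ^ 2 + n + 11) * connSize m := by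
        have : 2 * n ^ 2 + n + 11 = (2 * n ^ 2 + 11) + n := by ring
        rw [this, pow_add 2 _ n]
        ring

theorem D_le (hG : S_graph) (strict : Prop) (n m : ℕ) (hm : 2 ^ (2 * n ^ 2 + 2) ≤ m) :
    D strict n ≤ 2 ^ (2 * n ^ 2 + n + 11) * connSize m := by
  unfold D
  rcases Set.eq_empty_or_nonempty (costs strict n) with h0 | h0
  · rw [h0]
    simp
  · apply csSup_le h0
    rintro s ⟨A, hA, M, hM, rfl⟩
    have hm' : 2 ^ (2 * M.size ^ 2 + 2) ≤ m := by
      refine le_trans (Nat.pow_le_pow_right (by omega) ?_) hm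
      have := Nat.pow_le_pow_left hM 2
      omega
    obtain ⟨M', h1, h2, h3⟩ := upper hG M strict m hm'
    have h4 : detSize strict (M.language strict) ≤ M'.size := Nat.sInf_le ⟨M', h1, h2, rfl⟩
    refine h4.trans (h3.trans (Nat.mul_le_mul_right _ (Nat.pow_le_pow_right (by omega) ?_)))
    have := Nat.pow_le_pow_left hM 2
    omega

end simulate

end Pool.Agent.H644.LB
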